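import Pool.Agent.Helper8.HX.Defs
import Pool.Agent.Helper56.DA.Constr

/-!
The Bianchi identity and `d_A (ρ F) = 0`, in the two forms used by the project.
-/

set_option autoImplicit false

open scoped Manifold ContDiff
open MeasureTheory

namespace Pool.Agent.Helper56.HX

open Pool.Agent.Helper8.DC Pool.Agent.Helper8.DA Pool.Agent.Helper8.DE Pool.Agent.Helper8.HX

/-- `crossMat a` is the matrix of `v ↦ a × v`. -/
theorem crossMat_sum (a v : R3) (r : Fin 3) : ∑ t, crossMat a r t * v t = crossProduct a v r := by
  unfold crossMat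
  fin_cases r <;> simp [Fin.sum_univ_three, cross_apply] <;> ring

/-- K7b: Bianchi, as a closed `E`-valued form with coefficients `adj`. -/
theorem closedAt_curv (A : E4 → Fin 4 → R3) (U : Set E4) (hU : IsOpen U)
    (hA : ContDiffOn ℝ ∞ A U) (y : E4) (hy : y ∈ U) :
    ClosedAt (fun z m => crossMat (A z m)) (fun z r l m => curv A z l m r) y := by
  intro r l m n
  unfold dcov
  rw [crossMat_sum, crossMat_sum, crossMat_sum]
  have h0 := Helper56.DA.pd_form_sum A (fun _ => Pi.single r 1) U hU hA contDiffOn_const y hy l m n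
  have hf : ∀ p q : Fin 4, (fun z => Bundle.form A (fun _ => (Pi.single r 1 : R3)) z p q) =
      fun z => curv A z p q r := by
    intro p q
    funext z
    unfold Bundle.form
    fin_cases r <;> simp [Fin.sum_univ_three]
  rw [hf, hf, hf] at h0
  have hc : ∀ (k : Fin 4), cov A (fun _ => (Pi.single r 1 : R3)) y k =
      crossProduct (A y k) (Pi.single r 1) := by
    intro k
    unfold cov pd
    simp
  simp only [hc] at h0
  have hd : ∀ (a v : R3), ∑ b, crossProduct a (Pi.single r 1) b * v b = - crossProduct a v r := by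
    intro a v
    fin_cases r <;> simp [Fin.sum_univ_three, cross_apply] <;> ring
  have e1 := hd (A y l) (curv A y m n)
  have e2 := hd (A y m) (curv A y n l)
  have e3 := hd (A y n) (curv A y l m)
  simp only [Finset.sum_add_distrib] at h0
  linear_combination h0 + e1 + e2 + e3

/-- K7c: `d_A (ρ F) = 0` in the two forms. -/
theorem covClosed_tw (A : E4 → Fin 4 → R3) (ρ : E4 → Fin 3 → R3) (U : Set E4) (hU : IsOpen U)
    (hA : ContDiffOn ℝ ∞ A U) (hρ : ContDiffOn ℝ ∞ ρ U) (y : E4) (hy : y ∈ U) :
    ClosedAt (fun z m => crossMat (A z m)) (formL A ρ) y ↔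
      CovClosed A (fun z => tw (ρ z) (curv A z)) y := by
  have hUy := hU.mem_nhds hy
  have hcd : ∀ p q, DifferentiableAt ℝ (fun z => tw (ρ z) (curv A z) p q) y := by
    intro p q
    refine differentiableAt_pi.2 fun r => ?_
    have hF : ∀ a, DifferentiableAt ℝ (fun z => curv A z p q a) y := fun a =>
      ((contDiffOn_pi.1 (sm_curv hU hA p q) a).contDiffAt hUy).differentiableAt (by simp)
    have hr : ∀ a, DifferentiableAt ℝ (fun z => ρ z r a) y := fun a =>
      (((contDiffOn_pi.1 ((contDiffOn_pi.1 hρ) r)) a).contDiffAt hUy).differentiableAt (by simp)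
    unfold tw
    simp only [Fin.sum_univ_three]
    exact (((hr 0).fun_mul (hF 0)).fun_add ((hr 1).fun_mul (hF 1))).fun_add
      ((hr 2).fun_mul (hF 2))
  have hk : ∀ (r : Fin 3) (l m n : Fin 4),
      dcov (fun z m => crossMat (A z m)) (formL A ρ) y r l m n =
        (pd l (fun z => tw (ρ z) (curv A z) m n) y +
          crossProduct (A y l) (tw (ρ y) (curv A y) m n)) r := by
    intro r l m n
    unfold dcov
    rw [Pi.add_apply, ph_pd_comp (hcd m n)]
    have h1 : ∑ t, crossMat (A y l) r t * formL A ρ y t m n =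
        crossProduct (A y l) (tw (ρ y) (curv A y) m n) r := crossMat_sum _ _ _
    rw [h1]
    rfl
  constructor
  · intro h l m n
    funext r
    have h1 := h r l m n
    rw [hk, hk, hk] at h1
    simp only [Pi.add_apply, Pi.zero_apply] at h1 ⊢
    linear_combination h1
  · intro h r l m n
    have h1 := congrFun (h l m n) r
    rw [hk, hk, hk]
    simp only [Pi.add_apply, Pi.zero_apply] at h1 ⊢
    linear_combination h1

end Pool.Agent.Helper56.HX
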